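import Pool.Agent.Y521.SD.Stm
import Pool.Agent.Y73.SH.Glob

/-! Project SD: smoothing near a compact set. -/

set_option autoImplicit false

open Set Filter Topology Metric Function MeasureTheory
open scoped Manifold ContDiff

noncomputable section

namespace Pool.Agent.Y407.SD

open Pool.Agent.Y522 Pool.Agent.Y521.SD Pool.Agent.Y73.SH

/-- a map with a directional box is injective on the box -/
theorem MBox_inj {n : ℕ} {X : Type} {F : X → E n} {A : E n → X} {ρ κ : ℝ} (hκ : 0 < κ)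
    (h : MBox n F A ρ κ) {z w : E n} (hz : ‖z‖ ≤ ρ) (hw : ‖w‖ ≤ ρ) (he : F (A z) = F (A w)) :
    z = w := by
  by_contra hne
  have h0 : 0 < ‖w - z‖ := norm_pos_iff.2 (sub_ne_zero.2 (Ne.symm hne))
  obtain ⟨ℓ, hℓ⟩ := h (‖w - z‖⁻¹ • (w - z)) (by
    rw [norm_smul, norm_inv, norm_norm, inv_mul_cancel₀ h0.ne'])
  have h1 := hℓ z w hz hw ‖w - z‖ h0 (by
    rw [smul_smul, mul_inv_cancel₀ h0.ne', one_smul, sub_self, norm_zero]
    positivity)
  rw [he] at h1
  exact lt_irrefl _ h1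

section

variable {n : ℕ} {X : Type} [TopologicalSpace X] [ChartedSpace (E n) X]

theorem DMon_congr {F F' : X → E n} {x : X} (h : DMon n F x) (he : F' =ᶠ[𝓝 x] F) :
    DMon n F' x := by
  obtain ⟨A, hA0, hAd, hA⟩ := h
  refine ⟨A, hA0, hAd, fun v hv => ?_⟩
  obtain ⟨r, ℓ, hr, hℓ⟩ := hA v hv
  have h1 : ∀ᶠ p in 𝓝 (0 : E n), F' (A p) = F (A p) := by
    have h2 := hAd.continuousAt
    rw [ContinuousAt, hA0] at h2
    exact h2.eventually he
  obtain ⟨r1, hr1, h3⟩ := Metric.eventually_nhds_iff_ball.1 h1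
  have h4 : ∀ p : E n, ‖p‖ ≤ min r (r1 / 2) → F' (A p) = F (A p) := by
    intro p hp
    apply h3
    rw [mem_ball_zero_iff]
    have := min_le_right r (r1 / 2)
    linarith
  refine ⟨min r (r1 / 2), ℓ, lt_min hr (by linarith), fun p q hp hq t ht hpq => ?_⟩
  rw [h4 p hp, h4 q hq]
  exact hℓ p q (hp.trans (min_le_left _ _)) (hq.trans (min_le_left _ _)) t ht
    (hpq.trans (mul_le_mul_of_nonneg_right (min_le_left _ _) ht.le))

theorem DMon_of_MBox {F : X → E n} {A : E n → X} {κ : ℝ} (hκ : 0 < κ)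
    (h : MBox n F A (3 / 2) κ) {z : E n} (hz : ‖z‖ ≤ 1) (hd : LD n A z) : DMon n F (A z) := by
  refine ⟨fun p => A (p + z), by simp, ?_, fun v hv => ?_⟩
  · have h1 : LD n (fun p : E n => p + z) 0 := LD_add_const z 0
    refine LD.comp_fun ?_ h1
    simpa using hd
  · have hv0 : 0 < ‖v‖ := norm_pos_iff.2 hv
    obtain ⟨ℓ, hℓ⟩ := h (‖v‖⁻¹ • v) (by
      rw [norm_smul, norm_inv, norm_norm, inv_mul_cancel₀ hv0.ne'])
    refine ⟨min (1 / 2) (κ * ‖v‖), ℓ, lt_min (by norm_num) (mul_pos hκ hv0),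
      fun p q hp hq t ht hpq => ?_⟩
    have h1 : ∀ p : E n, ‖p‖ ≤ min (1 / 2) (κ * ‖v‖) → ‖p + z‖ ≤ 3 / 2 := by
      intro p hp
      have h2 := norm_add_le p z
      have h3 := min_le_left (1 / 2) (κ * ‖v‖)
      linarith
    refine hℓ (p + z) (q + z) (h1 p hp) (h1 q hq) (t * ‖v‖) (mul_pos ht hv0) ?_
    have e1 : q + z - (p + z) - (t * ‖v‖) • ‖v‖⁻¹ • v = q - p - t • v := by
      rw [smul_smul, mul_assoc, mul_inv_cancel₀ hv0.ne', mul_one]
      abel
    rw [e1]
    refine hpq.trans ?_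
    have h3 := min_le_right (1 / 2) (κ * ‖v‖)
    calc min (1 / 2) (κ * ‖v‖) * t ≤ κ * ‖v‖ * t := mul_le_mul_of_nonneg_right h3 ht.le
      _ = κ * (t * ‖v‖) := by ring

/-- points whose images are close to the image of the box lie in the larger box -/
theorem sep {F : X → E n} {W : Set X} {U : Set (E n)} (hF : ContinuousOn F W)
    (hU : IsOpen U) (hWU : MapsTo F W U) (hinj : InjOn F W)
    (hprop : ∀ L ⊆ U, IsCompact L → IsCompact (W ∩ F ⁻¹' L)) {B : E n → X}
    (hBd : ∀ z ∈ closedBall (0 : E n) 2, LD n B z) (hBW : ∀ z ∈ closedBall (0 : E n) 2, B z ∈ W) :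
    ∃ e : ℝ, 0 < e ∧ ∀ x ∈ B '' closedBall 0 1, ∀ y ∈ W, ‖F y - F x‖ ≤ 2 * e →
      y ∈ B '' ball 0 (3 / 2) := by
  have hC1 : IsCompact (B '' closedBall 0 1) := by
    apply (isCompact_closedBall _ _).image_of_continuousOn
    intro z hz
    exact (hBd z (closedBall_subset_closedBall (by norm_num) hz)).continuousAt.continuousWithinAt
  have hC1W : B '' closedBall 0 1 ⊆ W := by
    rintro _ ⟨z, hz, rfl⟩
    exact hBW z (closedBall_subset_closedBall (by norm_num) hz)
  set Q : Set (E n) := F '' (B '' closedBall 0 1) with hQ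
  have hQc : IsCompact Q := hC1.image_of_continuousOn (hF.mono hC1W)
  have hQU : Q ⊆ U := by
    rintro _ ⟨x, hx, rfl⟩
    exact hWU (hC1W hx)
  obtain ⟨r0, hr0, hr1⟩ := hQc.exists_cthickening_subset_open hU hQU
  have hLc : IsCompact (cthickening r0 Q) := hQc.cthickening
  have hopen : IsOpen (B '' ball 0 (3 / 2)) := isOpen_image_of_LD isOpen_ball fun z hz =>
    hBd z (ball_subset_closedBall (ball_subset_ball (by norm_num) hz))
  set Z : Set X := (W ∩ F ⁻¹' cthickening r0 Q) \ B '' ball 0 (3 / 2) with hZ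
  have hZc : IsCompact Z := (hprop _ hr1 hLc).diff hopen
  have hZW : Z ⊆ W := fun z hz => hz.1.1
  have hFZ : IsCompact (F '' Z) := hZc.image_of_continuousOn (hF.mono hZW)
  have hdis : Disjoint Q (F '' Z) := by
    rw [Set.disjoint_left]
    rintro _ ⟨x, hx, rfl⟩ ⟨y, hy, hxy⟩
    have h1 : y = x := hinj (hZW hy) (hC1W hx) hxy
    apply hy.2
    rw [h1]
    obtain ⟨z, hz, rfl⟩ := hx
    exact ⟨z, closedBall_subset_ball (by norm_num) hz, rfl⟩
  obtain ⟨δ, hδ, hδ1⟩ := hdis.exists_thickenings hQc hFZ.isClosed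
  refine ⟨min r0 δ / 4, by have := lt_min hr0 hδ; linarith, ?_⟩
  intro x hx y hy hxy
  have h0 := lt_min hr0 hδ
  have h1 : dist (F y) (F x) ≤ r0 := by
    rw [dist_eq_norm]
    have := min_le_left r0 δ
    linarith
  have h2 : dist (F y) (F x) < δ := by
    rw [dist_eq_norm]
    have := min_le_right r0 δ
    linarith
  by_contra hcon
  have hyZ : y ∈ Z := ⟨⟨hy, mem_cthickening_of_dist_le _ _ _ _ ⟨x, hx, rfl⟩ h1⟩, hcon⟩
  rw [Set.disjoint_left] at hδ1
  refine hδ1 (a := F y) ?_ ?_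
  · rw [mem_thickening_iff]
    exact ⟨F x, ⟨x, hx, rfl⟩, h2⟩
  · exact self_subset_thickening hδ _ ⟨y, hyZ, rfl⟩

end

theorem phase (hS : Pool.Agent.Y521.SD.StStep) (hB : StBox) : StPhase := by
  intro n X _ _ _ _ F W U K hW hF hU hWU hinj hprop hD hK hKW
  have hKc : IsCompact (K ∩ {x | ¬ LD n F x}) := by
    apply hK.inter_right
    have : IsOpen {x | LD n F x} := by
      rw [isOpen_iff_mem_nhds]
      intro x hx
      exact LD.eventually hx
    exact this.isClosed_compl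
  have h1 : ∀ x ∈ K ∩ {x | ¬ LD n F x}, ∃ (B : E n → X) (κ : ℝ), 0 < κ ∧ B 0 = x ∧
      InjOn B (closedBall 0 2) ∧ (∀ z ∈ closedBall 0 2, LD n B z) ∧
      (∀ z ∈ closedBall 0 2, B z ∈ W) ∧ MBox n F B 2 κ := by
    intro x hx
    have h2 : DMon n F x := (hD x (hKW hx.1)).resolve_left hx.2
    exact hB n X F x W hW (hKW hx.1) h2
  choose! B κ hκ hB0 hBi hBd hBW hBm using h1
  have hUn : ∀ x (hx : x ∈ K ∩ {x | ¬ LD n F x}), B x '' ball 0 (1 / 2) ∈ 𝓝 x := by
    intro x hx
    have h2 : LD n (B x) 0 := hBd x hx 0 (by simp)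
    have h3 := h2.image_mem_nhds (ball_mem_nhds (0 : E n) (by norm_num : (0 : ℝ) < 1 / 2))
    rwa [hB0 x hx] at h3
  obtain ⟨t, ht⟩ := hKc.elim_nhds_subcover' (fun x _ => B x '' ball 0 (1 / 2)) hUn
  set N := t.card with hN
  set A : Fin N → E n → X := fun j => B ((t.equivFin.symm j).1 : X) with hA
  have hAK : ∀ j : Fin N, ((t.equivFin.symm j).1 : X) ∈ K ∩ {x | ¬ LD n F x} := fun j =>
    (t.equivFin.symm j).1.2
  obtain ⟨κ₀, hκ0, hκ1⟩ := exists_lower (fun j : Fin N => κ ((t.equivFin.symm j).1 : X))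
    (fun j => hκ _ (hAK j))
  have hAi : ∀ j, InjOn (A j) (closedBall 0 2) := fun j => hBi _ (hAK j)
  have hAd : ∀ j, ∀ z ∈ closedBall (0 : E n) 2, LD n (A j) z := fun j => hBd _ (hAK j)
  have hAW : ∀ j, ∀ z ∈ closedBall (0 : E n) 2, A j z ∈ W := fun j => hBW _ (hAK j)
  have hcov : ∀ x ∈ K, ¬ LD n F x → ∃ j z, ‖z‖ ≤ 1 / 2 ∧ A j z = x := by
    intro x hxK hx
    have h2 := ht ⟨hxK, hx⟩
    rw [mem_iUnion₂] at h2
    obtain ⟨y, hy, z, hz, hzx⟩ := h2
    refine ⟨t.equivFin ⟨y, hy⟩, z, ?_, ?_⟩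
    · rw [mem_ball_zero_iff] at hz
      exact hz.le
    · simp only [hA, Equiv.symm_apply_apply]
      exact hzx
  set C : Set X := ⋃ j, A j '' closedBall 0 1 with hCdef
  have hCc : IsCompact C := by
    apply isCompact_iUnion
    intro j
    apply (isCompact_closedBall _ _).image_of_continuousOn
    intro z hz
    exact (hAd j z (closedBall_subset_closedBall (by norm_num) hz)).continuousAt.continuousWithinAt
  have hCW : C ⊆ W := by
    intro x hx
    rw [hCdef, mem_iUnion] at hx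
    obtain ⟨j, z, hz, rfl⟩ := hx
    exact hAW j z (closedBall_subset_closedBall (by norm_num) hz)
  refine ⟨C, hCc, hCW, ?_⟩
  intro e he
  -- the distances
  have hsep : ∀ j, ∃ e : ℝ, 0 < e ∧ ∀ x ∈ A j '' closedBall 0 1, ∀ y ∈ W,
      ‖F y - F x‖ ≤ 2 * e → y ∈ A j '' ball 0 (3 / 2) := fun j =>
    sep hF hU hWU hinj hprop (hAd j) (hAW j)
  choose ej hej0 hej using hsep
  obtain ⟨e1, he10, he11⟩ := exists_lower ej hej0
  have hQc : IsCompact (F '' C) := hCc.image_of_continuousOn (hF.mono hCW)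
  have hQU : F '' C ⊆ U := by
    rintro _ ⟨x, hx, rfl⟩
    exact hWU (hCW hx)
  obtain ⟨e2, he20, he21⟩ := hQc.exists_cthickening_subset_open hU hQU
  obtain ⟨d, hd0, hde, hd1, hd2⟩ : ∃ d : ℝ, 0 < d ∧ d ≤ e ∧ d ≤ e1 ∧ d ≤ e2 :=
    ⟨min e (min e1 e2), lt_min he (lt_min he10 he20), min_le_left _ _,
      (min_le_right _ _).trans (min_le_left _ _), (min_le_right _ _).trans (min_le_right _ _)⟩
  set d1 : ℝ := d / (N + 1) with hd1def
  have hN1 : (0 : ℝ) < (N : ℝ) + 1 := by positivity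
  have hd10 : 0 < d1 := by positivity
  -- the induction
  have key : ∀ i : ℕ, i ≤ N → ∃ F' : X → E n, ContinuousOn F' W ∧ (∀ p, ‖F' p - F p‖ ≤ i * d1) ∧
      (∀ p, (∀ j, p ∉ A j '' closedBall 0 1) → F' p = F p) ∧ (∀ p, LD n F p → LD n F' p) ∧
      (∀ j : Fin N, (j : ℕ) < i → ∀ z, ‖z‖ ≤ 1 / 2 → LD n F' (A j z)) ∧
      ∀ j, MBox n F' (A j) (2 - i / (2 * N)) (κ₀ * (1 - i / (2 * N))) := by
    intro i
    induction i with
    | zero =>
      intro _
      refine ⟨F, hF, fun p => by simp, fun _ _ => rfl, fun _ h => h, fun j hj => absurd hj (by omega),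
        fun j => ?_⟩
      refine MBox.mono' (hBm _ (hAK j)) (by simp) ?_
      have := hκ1 j
      simpa using this
    | succ i ih =>
      intro hi
      obtain ⟨F', h2, h3, h4, h5, h6, h7⟩ := ih (by omega)
      have hN0 : (0 : ℝ) < N := by exact_mod_cast (by omega : 0 < N)
      have hiN : ((i : ℝ) + 1) ≤ N := by exact_mod_cast hi
      have hi0 : (0 : ℝ) ≤ i := by positivity
      have g1 : ((i : ℝ) + 1) / (2 * N) ≤ 1 / 2 := by
        rw [div_le_iff₀ (by positivity)]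
        linarith
      have g2 : (i : ℝ) / (2 * N) < ((i : ℝ) + 1) / (2 * N) := by
        apply div_lt_div_of_pos_right _ (by positivity)
        linarith
      have g3 : 0 ≤ (i : ℝ) / (2 * N) := by positivity
      obtain ⟨F'', k1, k2, k3, k4, k5, k6⟩ := hS n X F' W N A ⟨i, by omega⟩ (2 - i / (2 * N))
        (2 - ((i : ℝ) + 1) / (2 * N)) (κ₀ * (1 - i / (2 * N)))
        (κ₀ * (1 - ((i : ℝ) + 1) / (2 * N))) d1 hW h2 hAi hAd hAW (by linarith) (by linarith)
        (by linarith) (mul_pos hκ0 (by linarith)) (mul_lt_mul_of_pos_left (by linarith) hκ0) hd10 h7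
      refine ⟨F'', k1, ?_, ?_, fun p hp => k4 p (h5 p hp), ?_, ?_⟩
      · intro p
        have e3 : F'' p - F p = (F'' p - F' p) + (F' p - F p) := by abel
        rw [e3]
        refine (norm_add_le _ _).trans ?_
        have := k3 p
        have := h3 p
        push_cast
        linarith
      · intro p hp
        rw [k2 p (hp _), h4 p hp]
      · intro j hj z hz
        rcases Nat.lt_succ_iff_lt_or_eq.1 hj with h8 | h8
        · exact k4 _ (h6 j h8 z hz)
        · have h9 : j = ⟨i, by omega⟩ := Fin.ext h8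
          rw [h9]
          exact k5 z hz
      · push_cast
        exact k6
  obtain ⟨F', h2, h3, h4, h5, h6, h7⟩ := key N le_rfl
  have hdist : ∀ p, ‖F' p - F p‖ ≤ d := by
    intro p
    refine (h3 p).trans ?_
    rw [hd1def, mul_div_assoc', div_le_iff₀ hN1]
    nlinarith
  have hoff : ∀ p, p ∉ C → F' p = F p := by
    intro p hp
    apply h4
    intro j hj
    exact hp (mem_iUnion.2 ⟨j, hj⟩)
  have hbox : ∀ j, MBox n F' (A j) (3 / 2) (κ₀ / 2) := by
    intro j
    have hN0 : (0 : ℝ) < N := by exact_mod_cast (lt_of_le_of_lt (Nat.zero_le _) j.2)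
    have e3 : (N : ℝ) / (2 * N) = 1 / 2 := by field_simp
    have h8 := h7 j
    rw [e3] at h8
    exact MBox.mono' h8 (by norm_num) (by linarith)
  have hκ2 : 0 < κ₀ / 2 := by linarith
  -- injectivity with one point in `C`
  have hone : ∀ x ∈ C, ∀ y ∈ W, F' x = F' y → x = y := by
    intro x hx y hy hxy
    rw [hCdef, mem_iUnion] at hx
    obtain ⟨j, hx⟩ := hx
    have h8 : ‖F y - F x‖ ≤ 2 * ej j := by
      have e3 : F y - F x = (F' x - F x) - (F' y - F y) := by rw [hxy]; abel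
      rw [e3]
      refine (norm_sub_le _ _).trans ?_
      have := hdist x
      have := hdist y
      have := he11 j
      linarith
    obtain ⟨w, hw, rfl⟩ := hej j x hx y hy h8
    obtain ⟨z, hz, rfl⟩ := hx
    rw [mem_ball_zero_iff] at hw
    rw [mem_closedBall_zero_iff] at hz
    rw [MBox_inj hκ2 (hbox j) (by linarith) hw.le hxy]
  refine ⟨F', h2, hoff, fun p => (hdist p).trans hde, ?_, ?_, h5, ?_, ?_⟩
  · intro x hx
    by_cases hxC : x ∈ C
    · apply he21
      refine mem_cthickening_of_dist_le _ _ _ _ ⟨x, hxC, rfl⟩ ?_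
      rw [dist_eq_norm]
      exact (hdist x).trans hd2
    · rw [hoff x hxC]
      exact hWU hx
  · intro x hx y hy hxy
    by_cases hxC : x ∈ C
    · exact hone x hxC y hy hxy
    · by_cases hyC : y ∈ C
      · exact (hone y hyC x hx hxy.symm).symm
      · rw [hoff x hxC, hoff y hyC] at hxy
        exact hinj hx hy hxy
  · intro x hx
    by_cases hxL : LD n F x
    · exact h5 x hxL
    · obtain ⟨j, z, hz, rfl⟩ := hcov x hx hxL
      exact h6 j j.2 z hz
  · intro x hx
    by_cases hxC : x ∈ C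
    · right
      rw [hCdef, mem_iUnion] at hxC
      obtain ⟨j, z, hz, rfl⟩ := hxC
      refine DMon_of_MBox hκ2 (hbox j) (by simpa using hz)
        (hAd j z (closedBall_subset_closedBall (by norm_num) hz))
    · rcases hD x hx with h8 | h8
      · exact Or.inl (h5 x h8)
      · right
        refine DMon_congr h8 ?_
        have h9 : Cᶜ ∈ 𝓝 x := hCc.isClosed.isOpen_compl.mem_nhds hxC
        filter_upwards [h9] with y hy
        exact hoff y hy

end Pool.Agent.Y407.SD
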